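import Pool.Agent.V1121.QG.Core

set_option autoImplicit false

/-!
# (QP1) implies (QP2) for classes of twisted involutions

For every Coxeter system `(W, S)` (of finite or infinite rank), every `W`-conjugacy class of twisted
involutions in `W⁺ = W ⋊ Aut(W, S)` which satisfies (QP1) also satisfies (QP2).
-/

namespace Pool.Agent.Results.MP_2f4918_al.QPOneImpliesQPTwo

variable {B : Type*} {M : CoxeterMatrix B} {W : Type*} [Group W]

/-- `Aut(W, S)`: the group automorphisms of `W` with `θ(S) = S`. -/
def AutS (cs : CoxeterSystem M W) : Subgroup (MulAut W) where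
  carrier := {θ | θ '' Set.range cs.simple = Set.range cs.simple}
  mul_mem' := by
    intro θ η hθ hη
    have hθ' : θ '' Set.range cs.simple = Set.range cs.simple := hθ
    have hη' : η '' Set.range cs.simple = Set.range cs.simple := hη
    have e : (⇑(θ * η) : W → W) = ⇑θ ∘ ⇑η := rfl
    change (θ * η) '' Set.range cs.simple = Set.range cs.simple
    rw [e, Set.image_comp, hη', hθ']
  one_mem' := by
    have e : (⇑(1 : MulAut W) : W → W) = id := rfl
    change (1 : MulAut W) '' Set.range cs.simple = Set.range cs.simple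
    rw [e, Set.image_id]
  inv_mem' := by
    intro θ hθ
    have hθ' : θ '' Set.range cs.simple = Set.range cs.simple := hθ
    change (θ⁻¹ : MulAut W) '' Set.range cs.simple = Set.range cs.simple
    conv_lhs => rw [← hθ']
    rw [← Set.image_comp]
    have e : (⇑(θ⁻¹ : MulAut W) ∘ ⇑θ : W → W) = id := by
      funext w
      exact MulAut.inv_apply_self W θ w
    rw [e, Set.image_id]

/-- The extended group `W⁺ = W ⋊ Aut(W, S)`, with `(x, α)(y, β) = (x α(y), α β)`. -/
abbrev WPlus (cs : CoxeterSystem M W) : Type _ := W ⋊[(AutS cs).subtype] (AutS cs)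

/-- The inclusion `x ↦ (x, id)`. -/
abbrev emb (cs : CoxeterSystem M W) : W →* WPlus cs := SemidirectProduct.inl

/-- The extended length `ℓ(x, θ) = ℓ(x)`. -/
noncomputable def len (cs : CoxeterSystem M W) (w : WPlus cs) : ℕ := cs.length w.left

/-- `K` is a `W`-conjugacy class in `I⁺ = {w : w² = 1}`. -/
def IsInvClass (cs : CoxeterSystem M W) (K : Set (WPlus cs)) : Prop :=
  ∃ w₀ : WPlus cs, w₀ * w₀ = 1 ∧ K = {w | ∃ u : W, w = emb cs u * w₀ * (emb cs u)⁻¹}

/-- (QP1). -/
def QP1 (cs : CoxeterSystem M W) (K : Set (WPlus cs)) : Prop :=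
  ∀ r : W, cs.IsReflection r → ∀ w ∈ K, len cs (emb cs r * w * emb cs r) = len cs w →
    emb cs r * w * emb cs r = w

/-- (QP2). -/
def QP2 (cs : CoxeterSystem M W) (K : Set (WPlus cs)) : Prop :=
  ∀ r : W, cs.IsReflection r → ∀ w ∈ K, ∀ i : B,
    len cs w < len cs (emb cs r * w * emb cs r) →
    len cs (emb cs (cs.simple i) * (emb cs r * w * emb cs r) * emb cs (cs.simple i)) <
      len cs (emb cs (cs.simple i) * w * emb cs (cs.simple i)) →
    emb cs r * w * emb cs r = emb cs (cs.simple i) * w * emb cs (cs.simple i)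

section aux

variable {cs : CoxeterSystem M W}

lemma aut_simple (θ : AutS cs) (i : B) : ∃ j, (θ : MulAut W) (cs.simple i) = cs.simple j := by
  have h : (θ : MulAut W) '' Set.range cs.simple = Set.range cs.simple := θ.2
  have h1 : (θ : MulAut W) (cs.simple i) ∈ Set.range cs.simple := by
    rw [← h]; exact ⟨_, ⟨i, rfl⟩, rfl⟩
  obtain ⟨j, hj⟩ := h1
  exact ⟨j, hj.symm⟩

lemma aut_length_le (θ : AutS cs) (g : W) : cs.length ((θ : MulAut W) g) ≤ cs.length g := by
  obtain ⟨ω, hred, rfl⟩ := cs.exists_isReduced g
  choose f hf using aut_simple θ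
  have h : (θ : MulAut W) (cs.wordProd ω) = cs.wordProd (ω.map f) := by
    rw [CoxeterSystem.wordProd, map_list_prod, CoxeterSystem.wordProd, List.map_map, List.map_map]
    congr 1
    apply List.map_congr_left
    intro i _
    exact hf i
  rw [h, hred.eq]
  have := cs.length_wordProd_le (ω.map f)
  simpa using this

lemma aut_length (θ : AutS cs) (g : W) : cs.length ((θ : MulAut W) g) = cs.length g := by
  apply le_antisymm (aut_length_le θ g)
  have h := aut_length_le θ⁻¹ ((θ : MulAut W) g)
  have e : ((θ⁻¹ : AutS cs) : MulAut W) ((θ : MulAut W) g) = g := by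
    rw [Subgroup.coe_inv]; exact MulAut.inv_apply_self W _ g
  rwa [e] at h

lemma aut_refl (θ : AutS cs) (t : W) (ht : cs.IsReflection t) : cs.IsReflection ((θ : MulAut W) t) := by
  obtain ⟨w, i, rfl⟩ := ht
  obtain ⟨j, hj⟩ := aut_simple θ i
  refine ⟨(θ : MulAut W) w, j, ?_⟩
  rw [map_mul, map_mul, map_inv, hj]

lemma left_conj (w : WPlus cs) (x : W) :
    (emb cs x * w * emb cs x).left = x * w.left * (w.right : MulAut W) x := by
  simp [SemidirectProduct.mul_left]

lemma right_conj (w : WPlus cs) (x : W) : (emb cs x * w * emb cs x).right = w.right := by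
  simp [SemidirectProduct.mul_right]

lemma left_conj' (w : WPlus cs) (x : W) :
    (emb cs x * w * (emb cs x)⁻¹).left = x * w.left * ((w.right : MulAut W) x)⁻¹ := by
  rw [← map_inv]
  simp [SemidirectProduct.mul_left]

lemma right_conj' (w : WPlus cs) (x : W) : (emb cs x * w * (emb cs x)⁻¹).right = w.right := by
  rw [← map_inv]
  simp [SemidirectProduct.mul_right]

end aux

/-- For every Coxeter system `(W, S)` and every `W`-conjugacy class `K` of twisted involutions:
(QP1) implies (QP2) (and hence `K` is quasiparabolic). -/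
theorem result {B : Type*} {M : CoxeterMatrix B} {W : Type*} [Group W] (cs : CoxeterSystem M W)
    (K : Set (WPlus cs)) (hK : IsInvClass cs K) (h1 : QP1 cs K) : QP1 cs K ∧ QP2 cs K := by
  refine ⟨h1, ?_⟩
  intro r hr w hw i hlt1 hlt2
  obtain ⟨w₀, hw₀, rfl⟩ := hK
  have hww : w * w = 1 := by
    obtain ⟨u, rfl⟩ := hw
    calc emb cs u * w₀ * (emb cs u)⁻¹ * (emb cs u * w₀ * (emb cs u)⁻¹)
        = emb cs u * (w₀ * w₀) * (emb cs u)⁻¹ := by group
      _ = 1 := by rw [hw₀]; group
  have hθθ : w.right * w.right = 1 := by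
    have := congrArg SemidirectProduct.right hww
    simpa using this
  have hxx : w.left * (w.right : MulAut W) w.left = 1 := by
    have := congrArg SemidirectProduct.left hww
    simpa using this
  have hθ2 : ∀ g, (w.right : MulAut W) ((w.right : MulAut W) g) = g := by
    intro g
    have h2 : ((w.right * w.right : AutS cs) : MulAut W) g = g := by rw [hθθ]; rfl
    exact h2
  obtain ⟨j, hj⟩ := aut_simple w.right i
  have hmem : ∀ u : W, emb cs u * w * (emb cs u)⁻¹ ∈
      {w | ∃ u : W, w = emb cs u * w₀ * (emb cs u)⁻¹} := by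
    intro u
    obtain ⟨u₀, rfl⟩ := hw
    exact ⟨u * u₀, by rw [map_mul]; group⟩
  have key := Pool.Agent.V1121.QG.core (cs := cs) (w.right : MulAut W) (aut_length w.right)
    (aut_refl w.right) w.left hxx hθ2 (by
      intro u t ht hl
      have h3 := h1 t ht _ (hmem u)
      have e1 : len cs (emb cs t * (emb cs u * w * (emb cs u)⁻¹) * emb cs t) =
          cs.length (t * (u * w.left * ((w.right : MulAut W) u)⁻¹) * (w.right : MulAut W) t) := by
        rw [len, left_conj, left_conj', right_conj']
      have e2 : len cs (emb cs u * w * (emb cs u)⁻¹) =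
          cs.length (u * w.left * ((w.right : MulAut W) u)⁻¹) := by
        rw [len, left_conj']
      have h4 := congrArg SemidirectProduct.left (h3 (by rw [e1, e2]; exact hl))
      rw [left_conj, left_conj', right_conj'] at h4
      exact h4) hr i j hj
    (by
      rw [len, len, left_conj] at hlt1
      exact hlt1)
    (by
      rw [len, len, left_conj, left_conj, left_conj, right_conj, hj] at hlt2
      exact hlt2)
  apply SemidirectProduct.ext
  · rw [left_conj, left_conj, hj]
    exact key
  · rw [right_conj, right_conj]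

end Pool.Agent.Results.MP_2f4918_al.QPOneImpliesQPTwo
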